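import Pool.Agent.TH852.SP.All

set_option autoImplicit false

/-!
# Fat points on very general surfaces in `P^3`

Let `S ⊂ P^3` be a very general surface of degree `d ≥ 3` (the coefficients of its equation `F` are
algebraically independent over `ℚ`), `r ≥ d`, and let `p_1, …, p_r` be very general points of `S`.

* If a curve in `|O_S(e)|` has multiplicity at least `m_i` at `p_i` for all `i`, then
  `(∑ m_i)² ≤ r d e²`.
* For every `ε > 0` there is `M₀` such that `L_e^S(m_1, …, m_r)` has its expected dimension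
  `h⁰(O_S(e)) - ∑ m_i (m_i + 1) / 2` (as a vector space) as soon as all `m_i ≤ M`, `M ≥ M₀` and
  `√d e ≥ (1 + ε) √r M`.
-/

namespace Pool.Agent.Results.MP_9d2805_ag.VeryGeneralSurfaces

open MvPolynomial

/-- The homogeneous coordinate ring `ℂ[x_0, x_1, x_2, x_3]` of `P^3`. -/
abbrev Coord := MvPolynomial (Fin 4) ℂ

/-- `F` is the equation of a very general surface of degree `d`: it is homogeneous of degree `d`
and its coefficients are algebraically independent over `ℚ`. -/
def IsVeryGeneral (d : ℕ) (F : Coord) : Prop :=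
  F.IsHomogeneous d ∧
    AlgebraicIndependent ℚ (fun α : {α : Fin 4 →₀ ℕ // Finsupp.degree α = d} => coeff α.1 F)

/-- The ideal of the point `w` of `ℂ⁴`. -/
noncomputable def pointIdeal (w : Fin 4 → ℂ) : Ideal Coord :=
  Ideal.span (Set.range fun i => X i - C (w i))

/-- `w` lists `r` points `(1, w_1, w_2, w_3)` of the surface `F = 0`. -/
def IsTuple {r : ℕ} (F : Coord) (w : Fin r → Fin 4 → ℂ) : Prop :=
  ∀ q, w q 0 = 1 ∧ eval (w q) F = 0

/-- The ideal of the polynomials `G` whose restriction to the surface `F = 0` has multiplicity at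
least `m` at its point `w`, `w 0 = 1`: those which lie, in the affine chart `x_0 = 1` and modulo
`F`, in the `m`-th power of the maximal ideal of `w`. -/
noncomputable def multiplicityIdeal (F : Coord) (w : Fin 4 → ℂ) (m : ℕ) : Ideal Coord :=
  Ideal.span {F} ⊔ Ideal.span {X 0 - 1} ⊔ (pointIdeal w) ^ m

/-- The vector space of the sections of `O_S(e)`, `S` the surface `F = 0`, that vanish with
multiplicity at least `m q` at the point `w q` for every `q`. -/
noncomputable def series {r : ℕ} (F : Coord) (e : ℕ) (m : Fin r → ℕ) (w : Fin r → Fin 4 → ℂ) :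
    Submodule ℂ (Coord ⧸ Ideal.span {F}) :=
  Submodule.map (Ideal.Quotient.mkₐ ℂ (Ideal.span {F})).toLinearMap
    (homogeneousSubmodule (Fin 4) ℂ e ⊓
      Submodule.restrictScalars ℂ (⨅ q, multiplicityIdeal F (w q) (m q)))

/-- **Linear series with very general fat points on very general surfaces in `P^3`.** -/
theorem result (d : ℕ) (hd : 3 ≤ d) (F : Coord) (hF : IsVeryGeneral d F) (r : ℕ) (hr : d ≤ r) :
    ∃ H : ℕ → MvPolynomial (Fin r × Fin 4) ℂ,
      (∀ k, ∃ w : Fin r → Fin 4 → ℂ, IsTuple F w ∧ eval (fun p => w p.1 p.2) (H k) ≠ 0) ∧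
      ∀ w : Fin r → Fin 4 → ℂ, IsTuple F w →
        (∀ k, eval (fun p => w p.1 p.2) (H k) ≠ 0) →
        Function.Injective w ∧
        (∀ (e : ℕ) (m : Fin r → ℕ), series F e m w ≠ ⊥ → (∑ q, m q) ^ 2 ≤ r * d * e ^ 2) ∧
        (∀ ε : ℝ, 0 < ε → ∃ M₀ : ℕ, ∀ M : ℕ, M₀ ≤ M → ∀ e : ℕ,
          (1 + ε) * √(r : ℝ) * M ≤ √(d : ℝ) * e → ∀ m : Fin r → ℕ, (∀ q, m q ≤ M) →
          (Module.finrank ℂ (series F e m w) : ℤ) =
            (e + 3).choose 3 - (e + 3 - d).choose 3 - ∑ q, ((m q + 1).choose 2 : ℤ)) :=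
  Pool.Agent.TH852.SP.all d hd F hF r hr

end Pool.Agent.Results.MP_9d2805_ag.VeryGeneralSurfaces
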